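import Pool.Agent.V11214.Organ3

/-!
# MP_5069ae_gt, Q1: short excursions outside a compact connected set

For every `n ≥ 3` the answer is negative: there are a compact connected set `K` of `ℝ ^ n`, points
`p, q` of `K` and `ε > 0` such that every curve from `p` to `q` spends length at least `ε` outside
`K`.  The set is a Cantor organ: over a four corner Cantor set `C` (the closure of the graph of
`∑ d_i 4^{-i} ↦ ∑ (d_i mod 2) 4^{-i}`, whose first coordinate fills `[0,1]`) one erects vertical
segments `[0,1]`, and at every `4`-adic point of the first coordinate the jump of the graph is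
bridged by one horizontal segment, at height `0, 1, 0` alternately.  A curve which uses almost all
bridges of a level oscillates too often; otherwise it has to jump outside `K` at a positive
proportion of the `4^n` places of level `n`, each time over a distance at least `4^{-n} / 8`.
-/

set_option autoImplicit false

namespace Pool.Agent.Results.MP_5069ae_gt.CantorOrgan

open Set

/-- `γ` (restricted to `[0,1]`) is a curve from `p` to `q`: continuous on `[0,1]` with
`γ 0 = p` and `γ 1 = q`. -/
def IsCurve {E : Type*} [TopologicalSpace E] (γ : ℝ → E) (p q : E) : Prop :=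
  ContinuousOn γ (Icc 0 1) ∧ γ 0 = p ∧ γ 1 = q

/-- `U = γ⁻¹ (complement of K)`: the set of all `t ∈ [0,1]` with `γ t ∉ K`. -/
def OutTimes {E : Type*} (γ : ℝ → E) (K : Set E) : Set ℝ := {t | t ∈ Icc (0 : ℝ) 1 ∧ γ t ∉ K}

/-- The set of connected components of `U` (the intervals `J_k`). -/
def Components (U : Set ℝ) : Set (Set ℝ) := {J | ∃ t ∈ U, J = connectedComponentIn U t}

/-- `length (γ \ K)`: the sum over the components `J` of `γ⁻¹ (complement of K)` of the length of
`γ` on `J` (the supremum of the inscribed polygonal sums, Mathlib's `eVariationOn`). -/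
noncomputable def LengthOutside {E : Type*} [PseudoEMetricSpace E] (γ : ℝ → E) (K : Set E) :
    ENNReal :=
  ∑' J : Components (OutTimes γ K), eVariationOn γ (J : Set ℝ)

open Pool.Agent.V11214.Organ in
/-- **MP_5069ae_gt, Q1, is answered in the negative**, in every dimension `n ≥ 3`. -/
theorem result (n : ℕ) (hn : 3 ≤ n) :
    ∃ K : Set (EuclideanSpace ℝ (Fin n)), IsCompact K ∧ IsConnected K ∧
      ∃ p ∈ K, ∃ q ∈ K, ∃ ε : ℝ, 0 < ε ∧
        ∀ γ : ℝ → EuclideanSpace ℝ (Fin n), IsCurve γ p q →
          ENNReal.ofReal ε ≤ LengthOutside γ K := by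
  let i0 : Fin n := ⟨0, by omega⟩
  let i1 : Fin n := ⟨1, by omega⟩
  let i2 : Fin n := ⟨2, by omega⟩
  let Φ : EuclideanSpace ℝ (Fin n) → R3 := fun x => (x i0, x i1, x i2)
  let ι : R3 → EuclideanSpace ℝ (Fin n) := fun x => WithLp.toLp 2 (fun i : Fin n =>
    if i = i0 then x.1 else if i = i1 then x.2.1 else if i = i2 then x.2.2 else 0)
  have hΦι : ∀ x, Φ (ι x) = x := by
    intro x
    have h10 : i1 ≠ i0 := by simp [i0, i1]
    have h20 : i2 ≠ i0 := by simp [i0, i2]
    have h21 : i2 ≠ i1 := by simp [i1, i2]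
    simp only [Φ, ι, if_true, if_neg h10, if_neg h20, if_neg h21]
  have hιc : Continuous ι := by
    refine (PiLp.continuous_toLp 2 _).comp (continuous_pi fun i => ?_)
    by_cases h0 : i = i0
    · simp only [if_pos h0]; fun_prop
    · by_cases h1 : i = i1
      · simp only [if_neg h0, if_pos h1]; fun_prop
      · by_cases h2 : i = i2
        · simp only [if_neg h0, if_neg h1, if_pos h2]; fun_prop
        · simp only [if_neg h0, if_neg h1, if_neg h2]; fun_prop
  have hcoord : ∀ (x y : EuclideanSpace ℝ (Fin n)) (i : Fin n), dist (x i) (y i) ≤ dist x y := by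
    intro x y i
    rw [dist_eq_norm, dist_eq_norm]
    exact PiLp.norm_apply_le (x - y) i
  have hΦ : ∀ x y, dist (Φ x) (Φ y) ≤ dist x y := fun x y =>
    max_le (hcoord x y i0) (max_le (hcoord x y i1) (hcoord x y i2))
  have hKc : IsCompact (ι '' K) := K_compact.image hιc
  refine ⟨ι '' K, hKc, ⟨⟨_, _, p_mem, rfl⟩, K_pre.image _ hιc.continuousOn⟩,
    ι (0, 0, 0), ⟨_, p_mem, rfl⟩, ι (1, 1 / 3, 0), ⟨_, q_mem, rfl⟩, 1 / 32, by norm_num, ?_⟩
  rintro γ ⟨h1, h2, h3⟩
  refine main Φ hΦ (ι '' K) hKc.isClosed ?_ γ h1 ?_ ?_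
  · rintro x ⟨y, hy, rfl⟩
    rw [hΦι]; exact hy
  · rw [h2, hΦι]
  · rw [h3, hΦι]

end Pool.Agent.Results.MP_5069ae_gt.CantorOrgan
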